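import Pool.Agent.L0h21.RW.PerDef

/-!
# Periods of `q ^ m G` with the exponent `-1 / m`

A functional on the localization of the polynomial ring at `q G` is given by the functionals
`φ N : h ↦ Φ (h / (q G) ^ N)`.
-/

set_option autoImplicit false

namespace Pool.Agent.LLead.RW

open MvPolynomial Pool.Agent.L0h21.RW Finset

/-- the functionals `φ N = Φ (· / (q G) ^ N)` of a functional `Φ` that vanishes on the functions
`a / G ^ k` -/
structure FC {V : Type} (q G : MvPolynomial V ℂ) (φ : ℕ → MvPolynomial V ℂ →ₗ[ℂ] ℂ) : Prop where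
  sh : ∀ N h, φ (N + 1) (q * G * h) = φ N h
  va : ∀ N h, φ N (q ^ N * h) = 0

lemma FC.shk {V : Type} {q G : MvPolynomial V ℂ} {φ : ℕ → MvPolynomial V ℂ →ₗ[ℂ] ℂ}
    (H : FC q G φ) (N k : ℕ) (h : MvPolynomial V ℂ) : φ (N + k) ((q * G) ^ k * h) = φ N h := by
  induction k with
  | zero => simp
  | succ k ih =>
    rw [← add_assoc, pow_succ', mul_assoc, H.sh, ih]

/-- the coefficients -/
noncomputable def pc (e0 : ℂ) (n : ℕ) : ℂ := ∏ i ∈ range n, ((i : ℂ) - e0)

lemma pc_succ (e0 : ℂ) (n : ℕ) : pc e0 (n + 1) = pc e0 n * ((n : ℂ) - e0) := by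
  unfold pc
  rw [prod_range_succ]

/-- composition with `∂ + e0 ∂G / G` -/
noncomputable def nab {V : Type} (q G : MvPolynomial V ℂ) (e0 : ℂ) (i : V)
    (φ : ℕ → MvPolynomial V ℂ →ₗ[ℂ] ℂ) (N : ℕ) : MvPolynomial V ℂ →ₗ[ℂ] ℂ :=
  (φ N) ∘ₗ (pderiv i).toLinearMap - (N : ℂ) • ((φ (N + 1)) ∘ₗ LinearMap.mulLeft ℂ (pderiv i (q * G))) +
    e0 • ((φ (N + 1)) ∘ₗ LinearMap.mulLeft ℂ (q * pderiv i G))

lemma nab_apply {V : Type} (q G : MvPolynomial V ℂ) (e0 : ℂ) (i : V)
    (φ : ℕ → MvPolynomial V ℂ →ₗ[ℂ] ℂ) (N : ℕ) (h : MvPolynomial V ℂ) :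
    nab q G e0 i φ N h = φ N (pderiv i h) - (N : ℂ) * φ (N + 1) (pderiv i (q * G) * h) +
      e0 * φ (N + 1) (q * pderiv i G * h) := by
  simp [nab, mul_assoc]

/-- natural multiples -/
lemma nsm {V : Type} (φ : MvPolynomial V ℂ →ₗ[ℂ] ℂ) (n : ℕ) (h : MvPolynomial V ℂ) :
    φ ((n : MvPolynomial V ℂ) * h) = (n : ℂ) * φ h := by
  rw [← nsmul_eq_mul, map_nsmul, nsmul_eq_mul]

lemma FC.nab {V : Type} {q G : MvPolynomial V ℂ} {φ : ℕ → MvPolynomial V ℂ →ₗ[ℂ] ℂ}
    (H : FC q G φ) (e0 : ℂ) (i : V) : FC q G (nab q G e0 i φ) := by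
  refine ⟨fun N h => ?_, fun N h => ?_⟩
  · rw [nab_apply, nab_apply]
    have h1 : pderiv i (q * G * h) = q * G * pderiv i h + pderiv i (q * G) * h := by
      rw [Derivation.leibniz]
      simp only [smul_eq_mul]
      ring
    have h2 : pderiv i (q * G) * (q * G * h) = q * G * (pderiv i (q * G) * h) := by ring
    have h3 : q * pderiv i G * (q * G * h) = q * G * (q * pderiv i G * h) := by ring
    rw [h1, h2, h3, map_add, H.sh, H.sh, H.sh]
    push_cast
    ring
  · rw [nab_apply]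
    rcases N with _ | N
    · have h1 := H.va 0 (pderiv i h)
      have h2 := H.va 1 (pderiv i G * h)
      rw [pow_zero, one_mul] at h1
      rw [pow_one, ← mul_assoc] at h2
      simp only [pow_zero, one_mul, Nat.cast_zero, zero_mul, h1, zero_add, h2]
      ring
    · have h1 : pderiv i (q ^ (N + 1) * h) = q ^ (N + 1) * pderiv i h +
          ((N + 1 : ℕ) : MvPolynomial V ℂ) * (q ^ N * (pderiv i q * h)) := by
        rw [Derivation.leibniz, Derivation.leibniz_pow]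
        simp only [smul_eq_mul, nsmul_eq_mul, Nat.add_sub_cancel]
        ring
      have h2 : pderiv i (q * G) * (q ^ (N + 1) * h) =
          q * G * (q ^ N * (pderiv i q * h)) + q ^ (N + 1 + 1) * (pderiv i G * h) := by
        rw [Derivation.leibniz]
        simp only [smul_eq_mul]
        ring
      have h3 : q * pderiv i G * (q ^ (N + 1) * h) = q ^ (N + 1 + 1) * (pderiv i G * h) := by ring
      rw [h1, h2, h3, map_add, map_add, nsm, H.va, H.va, H.sh]
      ring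

/-- multiplication by a variable -/
lemma FC.mul {V : Type} {q G : MvPolynomial V ℂ} {φ : ℕ → MvPolynomial V ℂ →ₗ[ℂ] ℂ}
    (H : FC q G φ) (f : MvPolynomial V ℂ) :
    FC q G (fun N => (φ N) ∘ₗ LinearMap.mulLeft ℂ f) := by
  refine ⟨fun N h => ?_, fun N h => ?_⟩
  · simp only [LinearMap.comp_apply, LinearMap.mulLeft_apply]
    rw [show f * (q * G * h) = q * G * (f * h) by ring, H.sh]
  · simp only [LinearMap.comp_apply, LinearMap.mulLeft_apply]
    rw [show f * (q ^ N * h) = q ^ N * (f * h) by ring, H.va]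

/-- the family of functionals on the twisted functions `h F ^ (e0 - n)` -/
noncomputable def fam {V : Type} (G : MvPolynomial V ℂ) (m : ℕ) (e0 : ℂ)
    (φ : ℕ → MvPolynomial V ℂ →ₗ[ℂ] ℂ) (n : ℕ) : MvPolynomial V ℂ →ₗ[ℂ] ℂ :=
  pc e0 n • ((φ (1 + (m + 1) * n)) ∘ₗ LinearMap.mulLeft ℂ (G ^ (1 + m * n)))

lemma fam_apply {V : Type} (G : MvPolynomial V ℂ) (m : ℕ) (e0 : ℂ)
    (φ : ℕ → MvPolynomial V ℂ →ₗ[ℂ] ℂ) (n : ℕ) (h : MvPolynomial V ℂ) :
    fam G m e0 φ n h = pc e0 n * φ (1 + (m + 1) * n) (G ^ (1 + m * n) * h) := by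
  simp [fam]

lemma fld1 {K : Type*} [Field K] {p g x : K} (hp : p ≠ 0) (hg : g ≠ 0) (N : ℕ) :
    p * g * x * ((p * g) ^ N * (p * g))⁻¹ = x * ((p * g) ^ N)⁻¹ := by
  field_simp

lemma fld2 {K : Type*} [Field K] {p g x : K} (hp : p ≠ 0) (hg : g ≠ 0) (N : ℕ) :
    p ^ N * x * ((p * g) ^ N)⁻¹ * g ^ N = x := by
  rw [mul_pow]
  field_simp

lemma fld3 {K : Type*} [Field K] {p g : K} (hp : p ≠ 0) (hg : g ≠ 0) :
    g * (p * g)⁻¹ = p⁻¹ := by
  field_simp

/-- a functional that vanishes on the functions regular along `q` and not at `1 / q` -/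
lemma exFC {V : Type} {q G : MvPolynomial V ℂ} (hq : Prime q) (hG : ¬ q ∣ G) :
    ∃ φ : ℕ → MvPolynomial V ℂ →ₗ[ℂ] ℂ, FC q G φ ∧ φ 1 G ≠ 0 := by
  classical
  have hG0 : G ≠ 0 := fun h => hG (h ▸ dvd_zero q)
  let K := FractionRing (MvPolynomial V ℂ)
  let al : MvPolynomial V ℂ →ₗ[ℂ] K := (IsScalarTower.toAlgHom ℂ (MvPolynomial V ℂ) K).toLinearMap
  have hal : ∀ x, al x = algebraMap (MvPolynomial V ℂ) K x := fun x => rfl
  have inj : Function.Injective (algebraMap (MvPolynomial V ℂ) K) := IsFractionRing.injective _ _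
  have ne : ∀ x : MvPolynomial V ℂ, x ≠ 0 → algebraMap (MvPolynomial V ℂ) K x ≠ 0 := by
    intro x hx h
    exact hx (inj (by rw [h, map_zero]))
  set g := algebraMap (MvPolynomial V ℂ) K G with hg
  set p := algebraMap (MvPolynomial V ℂ) K q with hp
  have g0 : g ≠ 0 := ne _ hG0
  have p0 : p ≠ 0 := ne _ hq.ne_zero
  let W : Submodule ℂ K :=
    { carrier := {x | ∃ (a : MvPolynomial V ℂ) (k : ℕ), x * g ^ k = algebraMap _ K a}
      add_mem' := by
        rintro x y ⟨a, k, h1⟩ ⟨b, l, h2⟩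
        refine ⟨a * G ^ l + b * G ^ k, k + l, ?_⟩
        rw [map_add, map_mul, map_mul, map_pow, map_pow, ← h1, ← h2, ← hg]
        ring
      zero_mem' := ⟨0, 0, by simp⟩
      smul_mem' := by
        rintro c x ⟨a, k, h1⟩
        refine ⟨c • a, k, ?_⟩
        rw [smul_mul_assoc, h1]
        exact (al.map_smul c a).symm }
  have hW : p⁻¹ ∉ W := by
    rintro ⟨a, k, h1⟩
    have h2 : algebraMap (MvPolynomial V ℂ) K (G ^ k) = algebraMap (MvPolynomial V ℂ) K (q * a) := by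
      rw [map_mul, ← h1, map_pow, ← hg, ← hp, ← mul_assoc, mul_inv_cancel₀ p0, one_mul]
    have h3 := inj h2
    exact hG (hq.dvd_of_dvd_pow ⟨a, h3⟩)
  obtain ⟨f, hf1, hf2⟩ := Submodule.exists_le_ker_of_notMem hW
  refine ⟨fun N => f ∘ₗ (LinearMap.mulRight ℂ ((p * g) ^ N)⁻¹) ∘ₗ al, ⟨fun N h => ?_, fun N h => ?_⟩, ?_⟩
  · simp only [LinearMap.comp_apply, LinearMap.mulRight_apply, hal]
    congr 1
    rw [map_mul, map_mul, ← hg, ← hp, pow_succ]
    exact fld1 p0 g0 N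
  · simp only [LinearMap.comp_apply, LinearMap.mulRight_apply, hal]
    have : algebraMap (MvPolynomial V ℂ) K (q ^ N * h) * ((p * g) ^ N)⁻¹ ∈ W := by
      refine ⟨h, N, ?_⟩
      rw [map_mul, map_pow, ← hp]
      exact fld2 p0 g0 N
    exact hf2 this
  · simp only [LinearMap.comp_apply, LinearMap.mulRight_apply, hal]
    have : algebraMap (MvPolynomial V ℂ) K G * ((p * g) ^ 1)⁻¹ = p⁻¹ := by
      rw [← hg, pow_one]
      exact fld3 p0 g0
    rw [this]
    exact hf1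

/-- Job C -/
theorem c : S_C' := by
  intro V q G m hm hq hG
  obtain ⟨m, rfl⟩ : ∃ k, m = k + 1 := ⟨m - 1, by omega⟩
  have hm1 : 1 ≤ m := by omega
  set e0 : ℂ := -1 / ((m + 1 : ℕ) : ℂ) with he0
  have hm0 : ((m : ℂ) + 1) ≠ 0 := by exact_mod_cast Nat.succ_ne_zero m
  have hN : ∀ n : ℕ, ((n : ℂ) - e0) * ((m : ℂ) + 1) = ((1 + (m + 1) * n : ℕ) : ℂ) := by
    intro n
    rw [he0]
    push_cast
    field_simp
    ring
  have hdF : ∀ i, pderiv i (q ^ (m + 1) * G) =
      ((m + 1 : ℕ) : MvPolynomial V ℂ) * (q ^ m * (G * pderiv i q)) + q ^ (m + 1) * pderiv i G := by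
    intro i
    rw [Derivation.leibniz, Derivation.leibniz_pow]
    simp only [smul_eq_mul, nsmul_eq_mul, Nat.add_sub_cancel]
    ring
  refine ⟨{c | ∃ φ, FC q G φ ∧ c = fam G m e0 φ}, ?_, ?_⟩
  · constructor
    · rintro c ⟨φ, H, rfl⟩ h
      rw [fam_apply]
      simp only [mul_zero, add_zero, pow_one]
      rw [show G * (q ^ (m + 1) * G * h) = q ^ 1 * (q ^ m * G * G * h) by ring, H.va, mul_zero]
    · rintro c ⟨φ, H, rfl⟩ n h
      rw [fam_apply, fam_apply, pc_succ]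
      have h1 : G ^ (1 + m * (n + 1)) * (q ^ (m + 1) * G * h) =
          (q * G) ^ (m + 1) * (G ^ (1 + m * n) * h) := by ring
      have h2 : 1 + (m + 1) * (n + 1) = 1 + (m + 1) * n + (m + 1) := by ring
      rw [h1, h2, H.shk]
      ring
    · rintro c ⟨φ, H, rfl⟩ i h
      rw [fam_apply]
      simp only [mul_zero, add_zero, pow_one]
      obtain ⟨k, rfl⟩ : ∃ k, m = k + 1 := ⟨m - 1, by omega⟩
      rw [hdF i, show G * ((((k + 1 + 1 : ℕ) : MvPolynomial V ℂ) * (q ^ (k + 1) * (G * pderiv i q)) +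
        q ^ (k + 1 + 1) * pderiv i G) * h) = q ^ 1 * (G * ((((k + 1 + 1 : ℕ) : MvPolynomial V ℂ) *
          (q ^ k * (G * pderiv i q)) + q ^ (k + 1) * pderiv i G) * h)) by ring, H.va, mul_zero]
    · rintro c ⟨φ, H, rfl⟩ i
      refine ⟨_, ⟨_, H.nab e0 i, rfl⟩, fun n h => ?_⟩
      rw [fam_apply, fam_apply, fam_apply, nab_apply, pc_succ]
      set N := 1 + (m + 1) * n with hNd
      have h2 : 1 + (m + 1) * (n + 1) = N + 1 + m := by rw [hNd]; ring
      -- the derivative of `G ^ a h`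
      have h3 : pderiv i (G ^ (1 + m * n) * h) = G ^ (1 + m * n) * pderiv i h +
          ((1 + m * n : ℕ) : MvPolynomial V ℂ) * (G ^ (m * n) * (pderiv i G * h)) := by
        rw [Derivation.leibniz, Derivation.leibniz_pow]
        simp only [smul_eq_mul, nsmul_eq_mul, Nat.add_sub_cancel_left]
        ring
      have h4 : φ N (G ^ (m * n) * (pderiv i G * h)) =
          φ (N + 1) (q * G ^ (1 + m * n) * (pderiv i G * h)) := by
        rw [← H.sh]
        congr 1
        ring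
      have h5 : pderiv i (q * G) * (G ^ (1 + m * n) * h) =
          G ^ (1 + m * n) * (G * (pderiv i q * h)) + q * G ^ (1 + m * n) * (pderiv i G * h) := by
        rw [Derivation.leibniz]
        simp only [smul_eq_mul]
        ring
      have h6 : q * pderiv i G * (G ^ (1 + m * n) * h) =
          q * G ^ (1 + m * n) * (pderiv i G * h) := by ring
      have h7 : G ^ (1 + m * (n + 1)) * (pderiv i (q ^ (m + 1) * G) * h) =
          ((m + 1 : ℕ) : MvPolynomial V ℂ) * ((q * G) ^ m * (G ^ (1 + m * n) * (G * (pderiv i q * h))))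
            + (q * G) ^ m * (q * G ^ (1 + m * n) * (pderiv i G * h)) := by
        rw [hdF i]
        ring
      rw [h2, h3, h5, h6, h7, map_add, map_add, map_add, nsm, nsm, h4, H.shk, H.shk]
      have h8 := hN n
      rw [← hNd] at h8
      have h9 : ((1 + m * n : ℕ) : ℂ) = (N : ℂ) - n := by
        rw [hNd]
        push_cast
        ring
      rw [h9, ← h8]
      push_cast
      ring
    · rintro c ⟨φ, H, rfl⟩ i
      refine ⟨_, ⟨_, H.mul (X i), rfl⟩, fun n h => ?_⟩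
      rw [fam_apply, fam_apply]
      simp only [LinearMap.comp_apply, LinearMap.mulLeft_apply]
      congr 2
      ring
  · obtain ⟨φ, H, h1⟩ := exFC hq hG
    refine ⟨_, ⟨φ, H, rfl⟩, ?_⟩
    rw [fam_apply]
    simpa [pc] using h1

end Pool.Agent.LLead.RW
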