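import Pool.Agent.LLead.RW.PC

/-!
# Periods of `q ^ a r ^ b G` with the exponent `-1`
-/

set_option autoImplicit false

namespace Pool.Agent.LLead.RW

open MvPolynomial Pool.Agent.L0h21.RW Finset

/-- the functionals `φ N = Φ (· / F ^ N)` of a functional `Φ` that vanishes on the functions
regular along `q` and on those regular along `r` -/
structure FX {V : Type} (q r F : MvPolynomial V ℂ) (a b : ℕ)
    (φ : ℕ → MvPolynomial V ℂ →ₗ[ℂ] ℂ) : Prop where
  sh : ∀ N h, φ (N + 1) (F * h) = φ N h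
  vq : ∀ N h, φ N (q ^ (a * N) * h) = 0
  vr : ∀ N h, φ N (r ^ (b * N) * h) = 0

/-- composition with `∂` -/
noncomputable def dx {V : Type} (F : MvPolynomial V ℂ) (i : V)
    (φ : ℕ → MvPolynomial V ℂ →ₗ[ℂ] ℂ) (N : ℕ) : MvPolynomial V ℂ →ₗ[ℂ] ℂ :=
  (φ N) ∘ₗ (pderiv i).toLinearMap - (N : ℂ) • ((φ (N + 1)) ∘ₗ LinearMap.mulLeft ℂ (pderiv i F))

lemma dx_apply {V : Type} (F : MvPolynomial V ℂ) (i : V)
    (φ : ℕ → MvPolynomial V ℂ →ₗ[ℂ] ℂ) (N : ℕ) (h : MvPolynomial V ℂ) :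
    dx F i φ N h = φ N (pderiv i h) - (N : ℂ) * φ (N + 1) (pderiv i F * h) := by
  simp [dx]

/-- the vanishing along one component is preserved by the derivation -/
lemma vdx {V : Type} {q F T : MvPolynomial V ℂ} {a : ℕ} (ha : 1 ≤ a) (hF : F = q ^ a * T)
    {φ : ℕ → MvPolynomial V ℂ →ₗ[ℂ] ℂ} (sh : ∀ N h, φ (N + 1) (F * h) = φ N h)
    (vq : ∀ N h, φ N (q ^ (a * N) * h) = 0) (i : V) (N : ℕ) (h : MvPolynomial V ℂ) :
    dx F i φ N (q ^ (a * N) * h) = 0 := by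
  rw [dx_apply]
  rcases N with _ | N
  · have h1 := vq 0 (pderiv i h)
    simp only [mul_zero, pow_zero, one_mul] at h1 ⊢
    rw [h1]
    simp
  · obtain ⟨k, hk⟩ : ∃ k, a * (N + 1) = k + 1 := ⟨a * (N + 1) - 1, by
      have : 1 ≤ a * (N + 1) := Nat.mul_pos ha (Nat.succ_pos N)
      omega⟩
    obtain ⟨c, rfl⟩ : ∃ c, a = c + 1 := ⟨a - 1, by omega⟩
    have h1 : pderiv i (q ^ ((c + 1) * (N + 1)) * h) = q ^ ((c + 1) * (N + 1)) * pderiv i h +
        (((c + 1) * (N + 1) : ℕ) : MvPolynomial V ℂ) * (q ^ k * (pderiv i q * h)) := by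
      rw [Derivation.leibniz, Derivation.leibniz_pow, hk]
      simp only [smul_eq_mul, nsmul_eq_mul, Nat.add_sub_cancel]
      rw [← hk]
      ring
    have h2 : pderiv i F * (q ^ ((c + 1) * (N + 1)) * h) =
        ((c + 1 : ℕ) : MvPolynomial V ℂ) * (F * (q ^ k * (pderiv i q * h))) +
          q ^ ((c + 1) * (N + 1 + 1)) * (pderiv i T * h) := by
      rw [hF, Derivation.leibniz, Derivation.leibniz_pow]
      simp only [smul_eq_mul, nsmul_eq_mul, Nat.add_sub_cancel]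
      have e1 : q ^ c * q ^ ((c + 1) * (N + 1)) = q ^ (c + 1) * q ^ k := by
        rw [hk]; ring
      have e2 : q ^ (c + 1) * q ^ ((c + 1) * (N + 1)) = q ^ ((c + 1) * (N + 1 + 1)) := by ring
      linear_combination (((c + 1 : ℕ) : MvPolynomial V ℂ) * T * pderiv i q * h) * e1 +
        (pderiv i T * h) * e2
    rw [h1, h2, map_add, map_add, nsm, nsm, vq, vq, sh]
    push_cast
    ring

lemma fx {K : Type*} [Field K] {x y f A B C D U W : K} {n : ℕ} (hf : f ≠ 0) (h : x + y = f⁻¹)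
    (e5 : f = A * B) (e6 : f = C * D) (e1 : x * B ^ (n + 1) = U) (e2 : y * D ^ (n + 1) = W) :
    f ^ n = A ^ (n + 1) * U + C ^ (n + 1) * W := by
  have h1 : f ^ n = (x + y) * f ^ (n + 1) := by
    rw [h, pow_succ', ← mul_assoc, inv_mul_cancel₀ hf, one_mul]
  have h2 : x * f ^ (n + 1) = A ^ (n + 1) * U := by
    rw [← e1, e5, mul_pow]; ring
  have h3 : y * f ^ (n + 1) = C ^ (n + 1) * W := by
    rw [← e2, e6, mul_pow]; ring
  rw [h1, add_mul, h2, h3]

lemma ce {R K : Type*} [CommRing R] [CommRing K] (f : R →+* K) {x : K} {T u : R} {k : ℕ}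
    (h : x * f T ^ k = f u) (l : ℕ) : x * f T ^ (k + l) = f (u * T ^ l) := by
  rw [pow_add, ← mul_assoc, h, map_mul, map_pow]

lemma polx {V : Type} {q r G u v : MvPolynomial V ℂ} {a b n : ℕ} (ha : 1 ≤ a) (hb : 1 ≤ b)
    (hq : Prime q) (hr : Prime r) (hqr : ¬ q ∣ r) (Q : V → ℂ) (h1 : eval Q q = 0)
    (h2 : eval Q r = 0) (h3 : eval Q G ≠ 0)
    (e : (q ^ a * r ^ b * G) ^ n = (q ^ a) ^ (n + 1) * u + (r ^ b) ^ (n + 1) * v) : False := by
  have hrq : ¬ r ∣ q := fun h => hqr (hr.irreducible.dvd_symm hq.irreducible h)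
  have d1 : q ^ (a * n) ∣ r ^ (b * (n + 1)) * v := by
    have h4 : r ^ (b * (n + 1)) * v = q ^ (a * n) * ((r ^ b * G) ^ n - q ^ a * u) := by
      have : (r ^ b) ^ (n + 1) * v = (q ^ a * r ^ b * G) ^ n - (q ^ a) ^ (n + 1) * u := by
        rw [e]; ring
      rw [pow_mul r, this, pow_mul q]
      ring
    exact ⟨_, h4⟩
  have d2 : r ^ (b * n) ∣ q ^ (a * (n + 1)) * u := by
    have h4 : q ^ (a * (n + 1)) * u = r ^ (b * n) * ((q ^ a * G) ^ n - r ^ b * v) := by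
      have : (q ^ a) ^ (n + 1) * u = (q ^ a * r ^ b * G) ^ n - (r ^ b) ^ (n + 1) * v := by
        rw [e]; ring
      rw [pow_mul q, this, pow_mul r]
      ring
    exact ⟨_, h4⟩
  obtain ⟨v', hv'⟩ := hq.pow_dvd_of_dvd_mul_left _ (fun h => hqr (hq.dvd_of_dvd_pow h)) d1
  obtain ⟨u', hu'⟩ := hr.pow_dvd_of_dvd_mul_left _ (fun h => hrq (hr.dvd_of_dvd_pow h)) d2
  have e8 : q ^ (a * n) * r ^ (b * n) * G ^ n =
      q ^ (a * n) * r ^ (b * n) * (q ^ a * u' + r ^ b * v') := by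
    have h5 : (q ^ a * r ^ b * G) ^ n = q ^ (a * n) * r ^ (b * n) * G ^ n := by
      rw [mul_pow, mul_pow, ← pow_mul, ← pow_mul]
    rw [← h5, e, hu', hv', ← pow_mul, ← pow_mul]
    ring
  have e9 := mul_left_cancel₀ (mul_ne_zero (pow_ne_zero _ hq.ne_zero) (pow_ne_zero _ hr.ne_zero)) e8
  have e10 := congrArg (eval Q) e9
  simp only [map_pow, map_add, map_mul, h1, h2] at e10
  rw [zero_pow (by omega), zero_pow (by omega), zero_mul, zero_mul, add_zero] at e10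
  exact pow_ne_zero n h3 e10

/-- the space of the elements `u / T ^ k` -/
def Wf {V : Type} {K : Type} [Field K] [Algebra (MvPolynomial V ℂ) K] [Algebra ℂ K]
    [IsScalarTower ℂ (MvPolynomial V ℂ) K] (T : MvPolynomial V ℂ) : Submodule ℂ K where
  carrier := {x | ∃ (u : MvPolynomial V ℂ) (k : ℕ), x * (algebraMap _ K T) ^ k = algebraMap _ K u}
  add_mem' := by
    rintro x y ⟨u, k, h1⟩ ⟨v, l, h2⟩
    refine ⟨u * T ^ l + v * T ^ k, k + l, ?_⟩
    rw [map_add, map_mul, map_mul, map_pow, map_pow, ← h1, ← h2]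
    ring
  zero_mem' := ⟨0, 0, by simp⟩
  smul_mem' := by
    rintro c x ⟨u, k, h1⟩
    refine ⟨c • u, k, ?_⟩
    rw [smul_mul_assoc, h1, Algebra.smul_def, Algebra.smul_def, map_mul,
      IsScalarTower.algebraMap_apply ℂ (MvPolynomial V ℂ) K]

/-- a functional that vanishes on the functions regular along one component and not at `1 / F` -/
lemma exFX0 {V : Type} {K : Type} [Field K] [Algebra (MvPolynomial V ℂ) K] [Algebra ℂ K]
    [IsScalarTower ℂ (MvPolynomial V ℂ) K]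
    (inj : Function.Injective (algebraMap (MvPolynomial V ℂ) K))
    {q r G : MvPolynomial V ℂ} {a b : ℕ} (ha : 1 ≤ a) (hb : 1 ≤ b)
    (hq : Prime q) (hr : Prime r) (hqr : ¬ q ∣ r) (Q : V → ℂ) (h1 : eval Q q = 0)
    (h2 : eval Q r = 0) (h3 : eval Q G ≠ 0) :
    ∃ φ : ℕ → MvPolynomial V ℂ →ₗ[ℂ] ℂ, FX q r (q ^ a * r ^ b * G) a b φ ∧ φ 1 1 ≠ 0 := by
  classical
  have hG0 : G ≠ 0 := fun h => h3 (by rw [h, map_zero])
  let al : MvPolynomial V ℂ →ₗ[ℂ] K := (IsScalarTower.toAlgHom ℂ (MvPolynomial V ℂ) K).toLinearMap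
  have hal : ∀ x, al x = algebraMap (MvPolynomial V ℂ) K x := fun x => rfl
  have ne : ∀ x : MvPolynomial V ℂ, x ≠ 0 → algebraMap (MvPolynomial V ℂ) K x ≠ 0 := by
    intro x hx h
    exact hx (inj (by rw [h, map_zero]))
  have hWf : ∀ T (x : K), x ∈ (Wf T : Submodule ℂ K) ↔ ∃ (u : MvPolynomial V ℂ) (k : ℕ),
    x * (algebraMap _ K T) ^ k = algebraMap _ K u := fun T x => Iff.rfl
  obtain ⟨F, hF⟩ : ∃ F, F = q ^ a * r ^ b * G := ⟨_, rfl⟩
  rw [← hF]
  have hF0 : F ≠ 0 := by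
    rw [hF]
    exact mul_ne_zero (mul_ne_zero (pow_ne_zero _ hq.ne_zero) (pow_ne_zero _ hr.ne_zero)) hG0
  have f0 := ne F hF0
  have g1 : algebraMap (MvPolynomial V ℂ) K F =
      algebraMap _ K (q ^ a) * algebraMap _ K (r ^ b * G) := by
    rw [← map_mul, hF, mul_assoc]
  have g2 : algebraMap (MvPolynomial V ℂ) K F =
      algebraMap _ K (r ^ b) * algebraMap _ K (q ^ a * G) := by
    rw [← map_mul, hF]
    congr 1
    ring
  have hW : (algebraMap (MvPolynomial V ℂ) K F)⁻¹ ∉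
      (Wf (r ^ b * G) ⊔ Wf (q ^ a * G) : Submodule ℂ K) := by
    intro h
    obtain ⟨x, hx, y, hy, hxy⟩ := Submodule.mem_sup.1 h
    obtain ⟨u, k, hu⟩ := (hWf _ _).1 hx
    obtain ⟨v, l, hv⟩ := (hWf _ _).1 hy
    -- common exponent
    have e1 : x * (algebraMap _ K (r ^ b * G)) ^ (k + l + 1) =
        algebraMap _ K (u * (r ^ b * G) ^ (l + 1)) := by
      rw [add_assoc]
      exact ce (algebraMap (MvPolynomial V ℂ) K) hu (l + 1)
    have e2 : y * (algebraMap _ K (q ^ a * G)) ^ (k + l + 1) =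
        algebraMap _ K (v * (q ^ a * G) ^ (k + 1)) := by
      rw [show k + l + 1 = l + (k + 1) by ring]
      exact ce (algebraMap (MvPolynomial V ℂ) K) hv (k + 1)
    have e3 := fx f0 hxy g1 g2 e1 e2
    rw [← map_pow, ← map_pow, ← map_pow, ← map_mul, ← map_mul, ← map_add] at e3
    have e7 := inj e3
    rw [hF] at e7
    exact polx ha hb hq hr hqr Q h1 h2 h3 e7
  obtain ⟨f, hf1, hf2⟩ := Submodule.exists_le_ker_of_notMem hW
  refine ⟨fun N => f ∘ₗ (LinearMap.mulRight ℂ ((algebraMap _ K F) ^ N)⁻¹) ∘ₗ al,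
    ⟨fun N h => ?_, fun N h => ?_, fun N h => ?_⟩, ?_⟩
  · simp only [LinearMap.comp_apply, LinearMap.mulRight_apply, hal]
    congr 1
    rw [map_mul, pow_succ]
    have := fld1 (p := algebraMap (MvPolynomial V ℂ) K F) (g := 1)
      (x := algebraMap (MvPolynomial V ℂ) K h) f0 one_ne_zero N
    simpa using this
  · simp only [LinearMap.comp_apply, LinearMap.mulRight_apply, hal]
    have : algebraMap (MvPolynomial V ℂ) K (q ^ (a * N) * h) * ((algebraMap _ K F) ^ N)⁻¹ ∈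
        (Wf (r ^ b * G) : Submodule ℂ K) := by
      rw [hWf]
      refine ⟨h, N, ?_⟩
      rw [g1, pow_mul, map_mul, map_pow (algebraMap (MvPolynomial V ℂ) K) (q ^ a)]
      refine fld2 (ne _ (pow_ne_zero _ hq.ne_zero)) (ne _ ?_) N
      exact mul_ne_zero (pow_ne_zero _ hr.ne_zero) hG0
    exact hf2 (Submodule.mem_sup_left this)
  · simp only [LinearMap.comp_apply, LinearMap.mulRight_apply, hal]
    have : algebraMap (MvPolynomial V ℂ) K (r ^ (b * N) * h) * ((algebraMap _ K F) ^ N)⁻¹ ∈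
        (Wf (q ^ a * G) : Submodule ℂ K) := by
      rw [hWf]
      refine ⟨h, N, ?_⟩
      rw [g2, pow_mul, map_mul, map_pow (algebraMap (MvPolynomial V ℂ) K) (r ^ b)]
      refine fld2 (ne _ (pow_ne_zero _ hr.ne_zero)) (ne _ ?_) N
      exact mul_ne_zero (pow_ne_zero _ hq.ne_zero) hG0
    exact hf2 (Submodule.mem_sup_right this)
  · simp only [LinearMap.comp_apply, LinearMap.mulRight_apply, hal]
    have : algebraMap (MvPolynomial V ℂ) K 1 * ((algebraMap _ K F) ^ 1)⁻¹ =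
        (algebraMap (MvPolynomial V ℂ) K F)⁻¹ := by
      rw [map_one, one_mul, pow_one]
    rw [this]
    exact hf1

lemma exFX {V : Type} {q r G : MvPolynomial V ℂ} {a b : ℕ} (ha : 1 ≤ a) (hb : 1 ≤ b)
    (hq : Prime q) (hr : Prime r) (hqr : ¬ q ∣ r) (Q : V → ℂ) (h1 : eval Q q = 0)
    (h2 : eval Q r = 0) (h3 : eval Q G ≠ 0) :
    ∃ φ : ℕ → MvPolynomial V ℂ →ₗ[ℂ] ℂ, FX q r (q ^ a * r ^ b * G) a b φ ∧ φ 1 1 ≠ 0 :=
  exFX0 (K := FractionRing (MvPolynomial V ℂ)) (IsFractionRing.injective _ _) ha hb hq hr hqr Q h1 h2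
    h3

/-- Job X -/
theorem x : S_X' := by
  intro V q r G a b ha hb hq hr hqr Q h1 h2 h3
  obtain ⟨φ, H, h4⟩ := exFX ha hb hq hr hqr Q h1 h2 h3
  have hF1 : q ^ a * r ^ b * G = q ^ a * (r ^ b * G) := by ring
  have hF2 : q ^ a * r ^ b * G = r ^ b * (q ^ a * G) := by ring
  have hdF : ∀ i, ∃ s t, pderiv i (q ^ a * r ^ b * G) = q ^ a * s + r ^ b * t := by
    intro i
    refine ⟨pderiv i (r ^ b * G), pderiv i (q ^ a) * G, ?_⟩
    rw [hF1, Derivation.leibniz]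
    simp only [smul_eq_mul]
    ring
  have hmul : ∀ {φ : ℕ → MvPolynomial V ℂ →ₗ[ℂ] ℂ} (f : MvPolynomial V ℂ),
      FX q r (q ^ a * r ^ b * G) a b φ →
      FX q r (q ^ a * r ^ b * G) a b (fun N => (φ N) ∘ₗ LinearMap.mulLeft ℂ f) := by
    intro φ f H
    refine ⟨fun N h => ?_, fun N h => ?_, fun N h => ?_⟩
    · simp only [LinearMap.comp_apply, LinearMap.mulLeft_apply]
      rw [mul_left_comm, H.sh]
    · simp only [LinearMap.comp_apply, LinearMap.mulLeft_apply]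
      rw [mul_left_comm, H.vq]
    · simp only [LinearMap.comp_apply, LinearMap.mulLeft_apply]
      rw [mul_left_comm, H.vr]
  have hdx : ∀ {φ : ℕ → MvPolynomial V ℂ →ₗ[ℂ] ℂ} (i : V),
      FX q r (q ^ a * r ^ b * G) a b φ →
      FX q r (q ^ a * r ^ b * G) a b (dx (q ^ a * r ^ b * G) i φ) := by
    intro φ i H
    refine ⟨fun N h => ?_, fun N h => ?_, fun N h => ?_⟩
    · rw [dx_apply, dx_apply, Derivation.leibniz]
      simp only [smul_eq_mul]
      set F := q ^ a * r ^ b * G with hF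
      rw [map_add, H.sh, show pderiv i F * (F * h) = F * (pderiv i F * h) by ring, H.sh,
        mul_comm h (pderiv i F)]
      push_cast
      ring
    · exact vdx ha hF1 H.sh H.vq i N h
    · exact vdx hb hF2 H.sh H.vr i N h
  refine ⟨{c | ∃ φ, FX q r (q ^ a * r ^ b * G) a b φ ∧
    c = fun n => ((n.factorial : ℕ) : ℂ) • φ (n + 1)}, ?_, ?_⟩
  · constructor
    · rintro c ⟨φ, H, rfl⟩ h
      simp only [LinearMap.smul_apply, smul_eq_mul]
      have := H.vq 0 h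
      rw [mul_zero, pow_zero, one_mul] at this
      rw [H.sh, this, mul_zero]
    · rintro c ⟨φ, H, rfl⟩ n h
      simp only [LinearMap.smul_apply, smul_eq_mul]
      rw [H.sh, Nat.factorial_succ]
      push_cast
      ring
    · rintro c ⟨φ, H, rfl⟩ i h
      simp only [LinearMap.smul_apply, smul_eq_mul]
      obtain ⟨s, t, hst⟩ := hdF i
      have v1 := H.vq 1 (s * h)
      have v2 := H.vr 1 (t * h)
      rw [mul_one] at v1 v2
      rw [hst, add_mul, mul_assoc, mul_assoc, map_add, zero_add, v1, v2, add_zero, mul_zero]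
    · rintro c ⟨φ, H, rfl⟩ i
      refine ⟨_, ⟨_, hdx i H, rfl⟩, fun n h => ?_⟩
      simp only [LinearMap.smul_apply, smul_eq_mul]
      rw [dx_apply, Nat.factorial_succ]
      push_cast
      ring
    · rintro c ⟨φ, H, rfl⟩ i
      refine ⟨_, ⟨_, hmul (X i) H, rfl⟩, fun n h => ?_⟩
      simp only [LinearMap.smul_apply, smul_eq_mul, LinearMap.comp_apply, LinearMap.mulLeft_apply]
  · refine ⟨_, ⟨φ, H, rfl⟩, ?_⟩
    simpa using h4

end Pool.Agent.LLead.RW
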